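import Pool.Agent.Lib.MP_152d63_al.Defs
import Pool.Agent.Lib.MP_152d63_al.Two.Main

/-! Global dimensions of spherical fusion categories below two. -/

namespace Pool.Agent.Results.MP_152d63_al.BelowTwo

open CategoryTheory MonoidalCategory Pool.Agent.Lib.MP_152d63_al

universe v u

theorem result (C : Type u) [Category.{v} C] [Abelian C] [Linear ℂ C] [MonoidalCategory C]
    [MonoidalPreadditive C] [MonoidalLinear ℂ C] [RigidCategory C] (hC : IsFusion C)
    (P : Pivotal C) (hP : P.IsSpherical) (n : ℕ) (S : Fin n → C) (hS : IsListOfSimples S) :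
    ∃ d : Fin n → ℂ, (∀ i, P.dim (S i) = d i • 𝟙 (𝟙_ C)) ∧
      ∃ x : ℝ, ∑ i, d i ^ 2 = (x : ℂ) ∧ (x = 1 ∨ x = (5 - Real.sqrt 5) / 2 ∨
        x = (15 - 5 * Real.sqrt 5) / 2 ∨ 2 ≤ x ∨ (3 ≤ (minpoly ℚ x).natDegree ∧
          2 * ((minpoly ℚ x).natDegree : ℝ) / ((minpoly ℚ x).natDegree + 1) ≤ x)) := by
  obtain ⟨c, rfl, rfl, h⟩ := exists_ctx hC P hP n S hS
  obtain rfl : c.S = S := funext h
  exact ⟨fun i => dm (c.S i), fun i => dim_eq _, below_two⟩

end Pool.Agent.Results.MP_152d63_al.BelowTwo
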