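import Pool.Agent.Lib.MP_152d63_al.Defs
import Pool.Agent.Lib.MP_152d63_al.Two.Main
import Pool.Agent.FS.FiniteBelow.Bound

/-! Only finitely many global dimensions of spherical fusion categories lie below five thirds. -/

namespace Pool.Agent.Results.MP_152d63_al.FiniteBelow

open CategoryTheory MonoidalCategory Pool.Agent.Lib.MP_152d63_al

universe v u

theorem result : ∃ F : Set ℝ, F.Finite ∧
    ∀ (C : Type u) [Category.{v} C] [Abelian C] [Linear ℂ C] [MonoidalCategory C]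
      [MonoidalPreadditive C] [MonoidalLinear ℂ C] [RigidCategory C], IsFusion C →
      ∀ P : Pivotal C, P.IsSpherical → ∀ (n : ℕ) (S : Fin n → C), IsListOfSimples S →
        ∃ d : Fin n → ℂ, (∀ i, P.dim (S i) = d i • 𝟙 (𝟙_ C)) ∧
          ∃ x : ℝ, ∑ i, d i ^ 2 = (x : ℂ) ∧ (x ∈ F ∨ 5 / 3 ≤ x) := by
  refine ⟨_, Pool.Agent.FS.FiniteBelow.small_finite.preimage Complex.ofReal_injective.injOn, ?_⟩
  intro C _ _ _ _ _ _ _ hC P hP n S hS
  obtain ⟨c, rfl, rfl, h⟩ := exists_ctx hC P hP n S hS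
  obtain rfl : c.S = S := funext h
  obtain ⟨k, n, θ, m, hd⟩ := exists_dat (C := C)
  refine ⟨fun i => dm (c.S i), fun i => dim_eq _, _, hd.hd.nF_eq.symm, ?_⟩
  exact (lt_or_ge _ _).imp_left (Pool.Agent.FS.FiniteBelow.mem_small hd)

end Pool.Agent.Results.MP_152d63_al.FiniteBelow
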